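import Pool.Agent.DY17.CertS80

set_option autoImplicit false

/-!
# Certificates (helper file for MP_d6084f_co)

`cert`: if `μ S' = 0` trivial. Otherwise take `g` from `talagrand` for `A = S'`. For `x ∈ S` with
certificate `I` and `ν` of `x`: `s ≤ ∑ y, ν y * #{i ∈ I | x i ≠ y i} = ∑ i ∈ I, a i` where
`a i = ∑ y with y i ≠ x i, ν y`; Cauchy-Schwarz: `s ^ 2 ≤ k * ∑ i, a i ^ 2 ≤ k * g x`. So
`μ S * exp (s ^ 2 / (4 k)) * μ S' ≤ 1`.

`far`: `S` = the `b` containing a member, `S'` = the `b` missing at least `s` points of every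
member; a member contained in `b` is a certificate.
-/

namespace Pool.Agent.DY17

theorem cert {Ω : Type} [Fintype Ω] [DecidableEq Ω] (w : Ω → ℝ) (hw : ∀ o, 0 ≤ w o)
    (hw1 : ∑ o, w o = 1) (N k s : ℕ) (hk : 0 < k) (S S' : Finset (Fin N → Ω))
    (h : ∀ x ∈ S, ∃ I : Finset (Fin N), I.card ≤ k ∧
      ∀ y ∈ S', s ≤ (I.filter (fun i => x i ≠ y i)).card) :
    (∑ x ∈ S, mu w x) * (∑ x ∈ S', mu w x) ≤ Real.exp (-((s : ℝ) ^ 2 / (4 * k))) :=
  CertS80.cert w hw hw1 N k s hk S S' h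

/-- the weights of a `p`-coin -/
noncomputable def bern (p : ℝ) (b : Bool) : ℝ := if b then p else 1 - p

theorem far (N k s : ℕ) (hk : 0 < k) (p : ℝ) (hp0 : 0 ≤ p) (hp1 : p ≤ 1)
    (G : Finset (Finset (Fin N))) (hG : ∀ A ∈ G, A.card ≤ k) (δ : ℝ) (hδ : 0 < δ)
    (hd : δ ≤ ∑ b : Fin N → Bool with (∃ A ∈ G, ∀ i ∈ A, b i = true), mu (bern p) b) :
    ∑ b : Fin N → Bool with (∀ A ∈ G, s ≤ (A.filter (fun i => b i = false)).card),
      mu (bern p) b ≤ Real.exp (-((s : ℝ) ^ 2 / (4 * k))) / δ := by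
  have hb : ∀ o, 0 ≤ bern p o := by
    intro o
    unfold bern
    split_ifs <;> linarith
  have hb1 : ∑ o, bern p o = 1 := by
    rw [Fintype.sum_bool]
    simp [bern]
  have hmu : ∀ b : Fin N → Bool, 0 ≤ mu (bern p) b := by
    intro b
    unfold mu
    exact Finset.prod_nonneg fun i _ => hb _
  have h1 := cert (bern p) hb hb1 N k s hk
    (Finset.univ.filter (fun b : Fin N → Bool => ∃ A ∈ G, ∀ i ∈ A, b i = true))
    (Finset.univ.filter (fun b : Fin N → Bool =>
      ∀ A ∈ G, s ≤ (A.filter (fun i => b i = false)).card)) ?_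
  · have h2 : 0 ≤ ∑ b : Fin N → Bool with (∀ A ∈ G, s ≤ (A.filter (fun i => b i = false)).card),
        mu (bern p) b := Finset.sum_nonneg fun b _ => hmu b
    rw [le_div_iff₀ hδ]
    calc (∑ b : Fin N → Bool with (∀ A ∈ G, s ≤ (A.filter (fun i => b i = false)).card),
          mu (bern p) b) * δ
        ≤ (∑ b : Fin N → Bool with (∀ A ∈ G, s ≤ (A.filter (fun i => b i = false)).card),
          mu (bern p) b) * ∑ b : Fin N → Bool with (∃ A ∈ G, ∀ i ∈ A, b i = true),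
          mu (bern p) b := mul_le_mul_of_nonneg_left hd h2
      _ ≤ _ := by
        rw [mul_comm]
        exact h1
  · intro x hx
    rw [Finset.mem_filter] at hx
    obtain ⟨A, hA, hxA⟩ := hx.2
    refine ⟨A, hG A hA, fun y hy => ?_⟩
    rw [Finset.mem_filter] at hy
    refine (hy.2 A hA).trans (Finset.card_le_card fun i hi => ?_)
    rw [Finset.mem_filter] at hi ⊢
    refine ⟨hi.1, ?_⟩
    rw [hxA i hi.1, hi.2]
    decide

end Pool.Agent.DY17
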