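import Pool.Agent.DY17.Tal

set_option autoImplicit false

/-!
# Certificates (proof of `cert` for DY17/Cert, MP_d6084f_co)
-/

namespace Pool.Agent.DY17.CertS80

open Pool.Agent.DY17

lemma mu_nonneg {Ω : Type} (w : Ω → ℝ) (hw : ∀ o, 0 ≤ w o) {N : ℕ} (x : Fin N → Ω) :
    0 ≤ mu w x := Finset.prod_nonneg fun i _ => hw (x i)

/-- Cauchy-Schwarz. -/
lemma cs {Ω : Type} [Fintype Ω] [DecidableEq Ω] {N k s : ℕ} {S' : Finset (Fin N → Ω)}
    {x : Fin N → Ω} {I : Finset (Fin N)} (hI : I.card ≤ k)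
    (hs : ∀ y ∈ S', s ≤ (I.filter (fun i => x i ≠ y i)).card) {ν : (Fin N → Ω) → ℝ} {g : ℝ}
    (h0 : ∀ y, 0 ≤ ν y) (h1 : ∑ y, ν y = 1) (hz : ∀ y, y ∉ S' → ν y = 0)
    (hg : ∑ i, (∑ y with y i ≠ x i, ν y) ^ 2 ≤ g) : (s : ℝ) ^ 2 ≤ k * g := by
  obtain ⟨a, ha⟩ : ∃ a : Fin N → ℝ, ∀ i, a i = ∑ y with y i ≠ x i, ν y := ⟨_, fun _ => rfl⟩
  have e1 : (s : ℝ) ≤ ∑ i ∈ I, a i := by
    calc (s : ℝ) = ∑ y, ν y * s := by rw [← Finset.sum_mul, h1, one_mul]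
      _ ≤ ∑ y, ν y * ((I.filter (fun i => x i ≠ y i)).card : ℝ) := by
          apply Finset.sum_le_sum
          intro y _
          by_cases hy : y ∈ S'
          · exact mul_le_mul_of_nonneg_left (by exact_mod_cast hs y hy) (h0 y)
          · rw [hz y hy, zero_mul, zero_mul]
      _ = ∑ y, ∑ i ∈ I, (if y i ≠ x i then ν y else 0) := by
          apply Finset.sum_congr rfl
          intro y _
          rw [Finset.card_filter]
          push_cast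
          rw [Finset.mul_sum]
          apply Finset.sum_congr rfl
          intro i _
          by_cases h : y i = x i
          · rw [if_neg (fun h' => h' h.symm), if_neg (fun h' => h' h), mul_zero]
          · rw [if_pos (fun h' => h h'.symm), if_pos h, mul_one]
      _ = ∑ i ∈ I, ∑ y, (if y i ≠ x i then ν y else 0) := Finset.sum_comm
      _ = ∑ i ∈ I, a i := by
          apply Finset.sum_congr rfl
          intro i _
          rw [ha, Finset.sum_filter]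
  have e2 : (∑ i ∈ I, a i) ^ 2 ≤ (I.card : ℝ) * ∑ i ∈ I, a i ^ 2 := sq_sum_le_card_mul_sum_sq
  have e3 : ∑ i ∈ I, a i ^ 2 ≤ ∑ i, a i ^ 2 :=
    Finset.sum_le_sum_of_subset_of_nonneg (Finset.subset_univ _) fun i _ _ => sq_nonneg _
  have e4 : ∑ i, a i ^ 2 ≤ g := by
    calc ∑ i, a i ^ 2 = ∑ i, (∑ y with y i ≠ x i, ν y) ^ 2 :=
          Finset.sum_congr rfl fun i _ => by rw [ha]
      _ ≤ g := hg
  have e5 : (0 : ℝ) ≤ ∑ i ∈ I, a i ^ 2 := Finset.sum_nonneg fun i _ => sq_nonneg _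
  have e6 : (I.card : ℝ) ≤ k := by exact_mod_cast hI
  calc (s : ℝ) ^ 2 ≤ (∑ i ∈ I, a i) ^ 2 := pow_le_pow_left₀ (Nat.cast_nonneg _) e1 2
    _ ≤ (I.card : ℝ) * ∑ i ∈ I, a i ^ 2 := e2
    _ ≤ k * ∑ i ∈ I, a i ^ 2 := mul_le_mul_of_nonneg_right e6 e5
    _ ≤ k * g := mul_le_mul_of_nonneg_left (e3.trans e4) (Nat.cast_nonneg _)

theorem cert {Ω : Type} [Fintype Ω] [DecidableEq Ω] (w : Ω → ℝ) (hw : ∀ o, 0 ≤ w o)
    (hw1 : ∑ o, w o = 1) (N k s : ℕ) (hk : 0 < k) (S S' : Finset (Fin N → Ω))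
    (h : ∀ x ∈ S, ∃ I : Finset (Fin N), I.card ≤ k ∧
      ∀ y ∈ S', s ≤ (I.filter (fun i => x i ≠ y i)).card) :
    (∑ x ∈ S, mu w x) * (∑ x ∈ S', mu w x) ≤ Real.exp (-((s : ℝ) ^ 2 / (4 * k))) := by
  have hk0 : (0 : ℝ) < k := by exact_mod_cast hk
  have hS'0 : 0 ≤ ∑ x ∈ S', mu w x := Finset.sum_nonneg fun x _ => mu_nonneg w hw x
  rcases hS'0.eq_or_lt with hz | hpos
  · rw [← hz, mul_zero]
    exact (Real.exp_pos _).le
  obtain ⟨g, hg, hT⟩ := talagrand w hw hw1 N S' hpos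
  have hgx : ∀ x ∈ S, Real.exp ((s : ℝ) ^ 2 / (4 * k)) ≤ Real.exp (g x / 4) := by
    intro x hx
    obtain ⟨I, hI, hs⟩ := h x hx
    obtain ⟨ν, h0, h1, hz, hgν⟩ := hg x
    have := cs hI hs h0 h1 hz hgν
    apply Real.exp_le_exp.mpr
    rw [div_le_div_iff₀ (by positivity) (by norm_num)]
    linarith
  have h1 : (∑ x ∈ S, mu w x) * Real.exp ((s : ℝ) ^ 2 / (4 * k)) ≤
      ∑ x, mu w x * Real.exp (g x / 4) := by
    calc (∑ x ∈ S, mu w x) * Real.exp ((s : ℝ) ^ 2 / (4 * k))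
        = ∑ x ∈ S, mu w x * Real.exp ((s : ℝ) ^ 2 / (4 * k)) := Finset.sum_mul _ _ _
      _ ≤ ∑ x ∈ S, mu w x * Real.exp (g x / 4) :=
          Finset.sum_le_sum fun x hx => mul_le_mul_of_nonneg_left (hgx x hx) (mu_nonneg w hw x)
      _ ≤ ∑ x, mu w x * Real.exp (g x / 4) :=
          Finset.sum_le_sum_of_subset_of_nonneg (Finset.subset_univ _)
            fun x _ _ => mul_nonneg (mu_nonneg w hw x) (Real.exp_pos _).le
  have h2 : (∑ x ∈ S, mu w x) * Real.exp ((s : ℝ) ^ 2 / (4 * k)) * (∑ x ∈ S', mu w x) ≤ 1 :=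
    (mul_le_mul_of_nonneg_right h1 hS'0).trans hT
  rw [Real.exp_neg, ← one_div, le_div_iff₀ (Real.exp_pos _)]
  calc (∑ x ∈ S, mu w x) * (∑ x ∈ S', mu w x) * Real.exp ((s : ℝ) ^ 2 / (4 * k))
      = (∑ x ∈ S, mu w x) * Real.exp ((s : ℝ) ^ 2 / (4 * k)) * (∑ x ∈ S', mu w x) := by ring
    _ ≤ 1 := h2

end Pool.Agent.DY17.CertS80
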