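import Pool.Agent.TV17.Lemma

set_option autoImplicit false

/-!
# Four arbitrary members (proof)
-/

namespace Pool.Agent.DY17.RegionS82

open Pool.Agent.TV17

theorem four_cover (k : ℕ) (F : Set (Finset ℕ)) (hF : SevenTwoCoverable F)
    (hk : ∀ A ∈ F, A.card = k) (A : Fin 4 → Finset ℕ) (hA : ∀ l, A l ∈ F) :
    ∃ T : Finset ℕ,
      T.card ≤ ((A 3 ∩ (A 0 ∪ A 1 ∪ A 2)) ∪ (A 0 ∩ A 1 ∩ A 2)).card + (k + 1) / 2 ∧
      ∀ D ∈ F, ∃ x ∈ T, x ∈ D := by
  classical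
  by_contra hcon
  push Not at hcon
  set W := (A 3 ∩ (A 0 ∪ A 1 ∪ A 2)) ∪ (A 0 ∩ A 1 ∩ A 2) with hW
  obtain ⟨D5, h5F, h5⟩ := hcon W (by omega)
  obtain ⟨P, Q, hPQ, hP, hQ⟩ := exists_split D5
  rw [hk D5 h5F] at hP hQ
  obtain ⟨D6, h6F, h6⟩ := hcon (W ∪ P) (by
    have := Finset.card_union_le W P
    omega)
  obtain ⟨D7, h7F, h7⟩ := hcon (W ∪ Q) (by
    have := Finset.card_union_le W Q
    omega)
  have hmW : ∀ z, z ∈ W ↔ (z ∈ A 3 ∧ (z ∈ A 0 ∨ z ∈ A 1 ∨ z ∈ A 2)) ∨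
      (z ∈ A 0 ∧ z ∈ A 1 ∧ z ∈ A 2) := by
    intro z
    rw [hW]
    simp only [Finset.mem_union, Finset.mem_inter, or_assoc, and_assoc]
  have h567 : ∀ z, ¬ (z ∈ D5 ∧ z ∈ D6 ∧ z ∈ D7) := by
    rintro z ⟨z5, z6, z7⟩
    rw [← hPQ, Finset.mem_union] at z5
    rcases z5 with z5 | z5
    · exact h6 z (Finset.mem_union_right _ z5) z6
    · exact h7 z (Finset.mem_union_right _ z5) z7
  obtain ⟨x, y, hxy⟩ := hF ({A 0, A 1, A 2, A 3, D5, D6, D7} : Finset (Finset ℕ)) (by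
    intro D hD
    simp only [Finset.coe_insert, Finset.coe_singleton, Set.mem_insert_iff,
      Set.mem_singleton_iff] at hD
    rcases hD with rfl | rfl | rfl | rfl | rfl | rfl | rfl
    · exact hA 0
    · exact hA 1
    · exact hA 2
    · exact hA 3
    · exact h5F
    · exact h6F
    · exact h7F) (by
      refine (Finset.card_insert_le _ _).trans ?_
      exact Nat.succ_le_succ Finset.card_le_six)
  have c0 := hxy (A 0) (by simp)
  have c1 := hxy (A 1) (by simp)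
  have c2 := hxy (A 2) (by simp)
  have c3 := hxy (A 3) (by simp)
  have c5 := hxy D5 (by simp)
  have c6 := hxy D6 (by simp)
  have c7 := hxy D7 (by simp)
  have hWD : ∀ z, z ∈ W → z ∉ D5 ∧ z ∉ D6 ∧ z ∉ D7 := fun z hz =>
    ⟨h5 z hz, h6 z (Finset.mem_union_left _ hz), h7 z (Finset.mem_union_left _ hz)⟩
  have hxW : x ∉ W := by
    intro hx
    obtain ⟨g5, g6, g7⟩ := hWD x hx
    exact h567 y ⟨c5.resolve_left g5, c6.resolve_left g6, c7.resolve_left g7⟩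
  have hyW : y ∉ W := by
    intro hy
    obtain ⟨g5, g6, g7⟩ := hWD y hy
    exact h567 x ⟨c5.resolve_right g5, c6.resolve_right g6, c7.resolve_right g7⟩
  rw [hmW] at hxW hyW
  push Not at hxW hyW
  rcases c3 with c3 | c3
  · obtain ⟨n0, n1, n2⟩ := hxW.1 c3
    exact hyW.2 (c0.resolve_left n0) (c1.resolve_left n1) (c2.resolve_left n2)
  · obtain ⟨n0, n1, n2⟩ := hyW.1 c3
    exact hxW.2 (c0.resolve_right n0) (c1.resolve_right n1) (c2.resolve_right n2)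

end Pool.Agent.DY17.RegionS82
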