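import Pool.Agent.TV17.Lemma
import Pool.Agent.DY17.RegionS82

set_option autoImplicit false

/-!
# Four arbitrary members (helper file for MP_d6084f_co)

`W` = the points of `A 3` in some other `A l` and the common points of `A 0, A 1, A 2`. Otherwise
take `D5` missing `W`, `D6` missing `W` and half of `D5`, `D7` missing `W` and the other half
(`exists_split`). Points of `W` are in none of `D5, D6, D7`, no point is in all three; a point
outside `W` is in `A 3` and in no other `A l`, or in at most two of `A 0, A 1, A 2` and not in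
`A 3`: two such points never cover `A 0, ..., A 3`.
-/

namespace Pool.Agent.DY17

open Pool.Agent.TV17

theorem four_cover (k : ℕ) (F : Set (Finset ℕ)) (hF : SevenTwoCoverable F)
    (hk : ∀ A ∈ F, A.card = k) (A : Fin 4 → Finset ℕ) (hA : ∀ l, A l ∈ F) :
    ∃ T : Finset ℕ,
      T.card ≤ ((A 3 ∩ (A 0 ∪ A 1 ∪ A 2)) ∪ (A 0 ∩ A 1 ∩ A 2)).card + (k + 1) / 2 ∧
      ∀ D ∈ F, ∃ x ∈ T, x ∈ D := by
  exact RegionS82.four_cover k F hF hk A hA

end Pool.Agent.DY17
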