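import Pool.Agent.DY17.Outcome
import Pool.Agent.DY17.Region

set_option autoImplicit false

/-!
# Families with members in random sets (helper file for MP_d6084f_co)

`transfer`: `X` is identified with `Fin N`, `N = |X|`, and the members inside `X` with a
`G : Finset (Finset (Fin N))`; a word `b : Fin N → Bool` corresponds to the set of the points with
value true.

`main`: `k = 0` is impossible (the empty set would be a member as `δ > 0`). `s = floor (2 * sqrt (k
log (4 (k+2) / δ)))`; `δ ≤ 1` as the weights sum to 1, so the logarithm is positive.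
`outcome`, then `four_cover`.
-/

namespace Pool.Agent.DY17

open Pool.Agent.TV17

open Classical in
theorem transfer (F : Set (Finset ℕ)) (X : Finset ℕ) (p : ℝ) :
    ∃ (e : Fin X.card ↪ ℕ) (G : Finset (Finset (Fin X.card))),
      (∀ A, A ∈ G ↔ A.map e ∈ F) ∧
      ∑ B ∈ X.powerset with (∃ A ∈ F, A ⊆ B), p ^ B.card * (1 - p) ^ (X.card - B.card)
        = ∑ b : Fin X.card → Bool with (∃ A ∈ G, ∀ i ∈ A, b i = true), mu (bern p) b := by
  obtain ⟨e, hmap⟩ : ∃ e : Fin X.card ↪ ℕ, Finset.univ.map e = X :=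
    ⟨(X.orderEmbOfFin rfl).toEmbedding, Finset.map_orderEmbOfFin_univ X rfl⟩
  have hmem : ∀ i, e i ∈ X := fun i => by
    have h1 := Finset.mem_map_of_mem e (Finset.mem_univ i)
    rw [hmap] at h1
    exact h1
  have hsurj : ∀ x ∈ X, ∃ i, e i = x := fun x hx => by
    rw [← hmap, Finset.mem_map] at hx
    obtain ⟨i, -, hi⟩ := hx
    exact ⟨i, hi⟩
  refine ⟨e, Finset.univ.filter (fun A => A.map e ∈ F), fun A => by
    rw [Finset.mem_filter]
    exact ⟨fun h => h.2, fun h => ⟨Finset.mem_univ _, h⟩⟩, ?_⟩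
  symm
  refine Finset.sum_bij' (fun b _ => (Finset.univ.filter (fun i => b i = true)).map e)
    (fun B _ => fun i => decide (e i ∈ B)) ?_ ?_ ?_ ?_ ?_
  · intro b hb
    rw [Finset.mem_filter] at hb ⊢
    obtain ⟨-, A, hA, hAb⟩ := hb
    rw [Finset.mem_filter] at hA
    refine ⟨?_, A.map e, hA.2, ?_⟩
    · rw [Finset.mem_powerset]
      intro x hx
      rw [Finset.mem_map] at hx
      obtain ⟨i, -, rfl⟩ := hx
      exact hmem i
    · apply Finset.map_subset_map.2
      intro i hi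
      rw [Finset.mem_filter]
      exact ⟨Finset.mem_univ _, hAb i hi⟩
  · intro B hB
    rw [Finset.mem_filter] at hB ⊢
    obtain ⟨hBX, A, hAF, hAB⟩ := hB
    rw [Finset.mem_powerset] at hBX
    refine ⟨Finset.mem_univ _, Finset.univ.filter (fun i => e i ∈ A), ?_, ?_⟩
    · rw [Finset.mem_filter]
      refine ⟨Finset.mem_univ _, ?_⟩
      have h1 : (Finset.univ.filter (fun i => e i ∈ A)).map e = A := by
        ext x
        rw [Finset.mem_map]
        constructor
        · rintro ⟨i, hi, rfl⟩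
          exact (Finset.mem_filter.1 hi).2
        · intro hx
          obtain ⟨i, rfl⟩ := hsurj x (hBX (hAB hx))
          exact ⟨i, Finset.mem_filter.2 ⟨Finset.mem_univ _, hx⟩, rfl⟩
      rw [h1]
      exact hAF
    · intro i hi
      exact decide_eq_true (hAB (Finset.mem_filter.1 hi).2)
  · intro b hb
    funext i
    have h1 : e i ∈ (Finset.univ.filter (fun i => b i = true)).map e ↔ b i = true := by
      rw [Finset.mem_map' e, Finset.mem_filter]
      exact ⟨fun h => h.2, fun h => ⟨Finset.mem_univ _, h⟩⟩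
    cases hbi : b i with
    | true => exact decide_eq_true (h1.2 hbi)
    | false =>
      refine decide_eq_false (fun h => ?_)
      have h2 := h1.1 h
      rw [hbi] at h2
      exact Bool.false_ne_true h2
  · intro B hB
    rw [Finset.mem_filter, Finset.mem_powerset] at hB
    ext x
    rw [Finset.mem_map]
    constructor
    · rintro ⟨i, hi, rfl⟩
      exact of_decide_eq_true (Finset.mem_filter.1 hi).2
    · intro hx
      obtain ⟨i, rfl⟩ := hsurj x (hB.1 hx)
      exact ⟨i, Finset.mem_filter.2 ⟨Finset.mem_univ _, decide_eq_true hx⟩, rfl⟩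
  · intro b hb
    have h1 : mu (bern p) b = ∏ i, if b i = true then p else 1 - p := rfl
    have h2 : (Finset.univ.filter (fun i => b i = true)).card +
        (Finset.univ.filter (fun i => ¬ b i = true)).card = X.card := by
      rw [Finset.card_filter_add_card_filter_not, Finset.card_univ, Fintype.card_fin]
    rw [h1, Finset.prod_ite, Finset.prod_const, Finset.prod_const, Finset.card_map]
    congr 2
    omega

theorem floor_aux (x : ℝ) : x < ((⌊Real.sqrt x⌋₊ : ℝ) + 1) ^ 2 :=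
  Real.lt_sq_of_sqrt_lt (Nat.lt_floor_add_one _)

open Classical in
theorem main (k : ℕ) (F : Set (Finset ℕ)) (hk : ∀ A ∈ F, A.card = k)
    (hF : SevenTwoCoverable F) (X : Finset ℕ) (p δ : ℝ) (hp : 2 / 5 ≤ p) (hp1 : p ≤ 2 / 3)
    (hδ : 0 < δ)
    (hd : δ ≤ ∑ B ∈ X.powerset with (∃ A ∈ F, A ⊆ B),
      p ^ B.card * (1 - p) ^ (X.card - B.card)) :
    ∃ T : Finset ℕ,
      (T.card : ℝ) ≤ (3 - 1 / p) * k + 8 * Real.sqrt (k * Real.log (4 * (k + 2) / δ)) + 2 ∧
      ∀ A ∈ F, ∃ t ∈ T, t ∈ A := by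
  rcases Nat.eq_zero_or_pos k with hk0 | hkpos
  · refine ⟨∅, ?_, fun A hA => ?_⟩
    · rw [Finset.card_empty, hk0, Nat.cast_zero, mul_zero, zero_mul, Real.sqrt_zero]
      norm_num
    · exfalso
      obtain ⟨x, y, hxy⟩ := hF {A} (by
        intro B hB
        rw [Finset.coe_singleton, Set.mem_singleton_iff] at hB
        rw [hB]
        exact hA) (by rw [Finset.card_singleton]; norm_num)
      have hA0 : A = ∅ := Finset.card_eq_zero.mp (by rw [hk A hA, hk0])
      have h3 := hxy A (Finset.mem_singleton_self A)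
      rw [hA0] at h3
      rcases h3 with h3 | h3
      · exact Finset.notMem_empty _ h3
      · exact Finset.notMem_empty _ h3
  obtain ⟨e, G, hG, hsum⟩ := transfer F X p
  set L : ℝ := Real.log (4 * (k + 2) / δ) with hL
  have hkR : (0 : ℝ) < k := by exact_mod_cast hkpos
  set s : ℕ := ⌊Real.sqrt (4 * (k * L))⌋₊ with hs
  have hs1 : 4 * (k * L) < ((s : ℝ) + 1) ^ 2 := floor_aux _
  have hs2 : (s : ℝ) ≤ 2 * Real.sqrt (k * L) := by
    have h1 : (s : ℝ) ≤ Real.sqrt (4 * (k * L)) := Nat.floor_le (Real.sqrt_nonneg _)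
    have h2 : Real.sqrt (4 * (k * L)) = 2 * Real.sqrt (k * L) := by
      rw [Real.sqrt_mul (by norm_num : (0 : ℝ) ≤ 4)]
      have h3 : Real.sqrt 4 = 2 := by
        rw [show (4 : ℝ) = 2 ^ 2 by norm_num]
        exact Real.sqrt_sq (by norm_num)
      rw [h3]
    rw [← h2]
    exact h1
  have hpos : (0 : ℝ) < 4 * (k + 2) / δ := by positivity
  have hexp : Real.exp (-(((s : ℝ) + 1) ^ 2 / (4 * k))) / δ ≤ 1 / (4 * ((k : ℝ) + 2)) := by
    have h1 : L ≤ ((s : ℝ) + 1) ^ 2 / (4 * k) := by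
      rw [le_div_iff₀ (by positivity)]
      nlinarith
    have h2 : Real.exp (-(((s : ℝ) + 1) ^ 2 / (4 * k))) ≤ Real.exp (-L) :=
      Real.exp_le_exp.2 (neg_le_neg h1)
    have h3 : Real.exp (-L) = δ / (4 * (k + 2)) := by
      rw [Real.exp_neg, hL, Real.exp_log hpos, inv_div]
    rw [h3] at h2
    rw [div_le_iff₀ hδ]
    refine h2.trans (le_of_eq ?_)
    ring
  have hd' : δ ≤ ∑ b : Fin X.card → Bool with (∃ A ∈ G, ∀ i ∈ A, b i = true), mu (bern p) b := by
    rw [← hsum]
    exact hd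
  obtain ⟨A, hA, hW⟩ := outcome X.card k s hkpos p hp hp1 G
    (fun B hB => by
      have h1 := hk _ ((hG B).1 hB)
      rw [Finset.card_map] at h1
      exact h1.le)
    δ hδ (hd'.trans (le_of_eq (Finset.sum_congr (by
      ext b
      simp only [Finset.mem_filter]) (fun _ _ => rfl)))) hexp
  obtain ⟨T, hT, hTF⟩ := four_cover k F hF hk (fun l => (A l).map e) (fun l => (hG _).1 (hA l))
  refine ⟨T, ?_, hTF⟩
  have hmap : (((A 3).map e ∩ ((A 0).map e ∪ (A 1).map e ∪ (A 2).map e)) ∪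
      ((A 0).map e ∩ (A 1).map e ∩ (A 2).map e)).card =
      ((A 3 ∩ (A 0 ∪ A 1 ∪ A 2)) ∪ (A 0 ∩ A 1 ∩ A 2)).card := by
    rw [← Finset.card_map e, Finset.map_union, Finset.map_inter, Finset.map_inter,
      Finset.map_inter, Finset.map_union, Finset.map_union]
  have hT1 : T.card ≤ ((A 3 ∩ (A 0 ∪ A 1 ∪ A 2)) ∪ (A 0 ∩ A 1 ∩ A 2)).card + (k + 1) / 2 := by
    rw [← hmap]
    exact hT
  have hT2 : (T.card : ℝ) ≤
      (((A 3 ∩ (A 0 ∪ A 1 ∪ A 2)) ∪ (A 0 ∩ A 1 ∩ A 2)).card : ℝ) + ((k : ℝ) + 1) / 2 := by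
    have h1 : ((((k + 1) / 2 : ℕ)) : ℝ) ≤ ((k : ℝ) + 1) / 2 := by
      have h2 := @Nat.cast_div_le ℝ _ _ _ (k + 1) 2
      push_cast at h2
      exact h2
    have h2 : (T.card : ℝ) ≤
        (((A 3 ∩ (A 0 ∪ A 1 ∪ A 2)) ∪ (A 0 ∩ A 1 ∩ A 2)).card : ℝ) + (((k + 1) / 2 : ℕ) : ℝ) := by
      exact_mod_cast hT1
    linarith
  have hp0 : p ≠ 0 := by
    intro h
    rw [h] at hp
    norm_num at hp
  have h5 : (5 * p - 2) / (2 * p) = 5 / 2 - 1 / p := by
    field_simp
  rw [h5] at hW
  linarith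

end Pool.Agent.DY17
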