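import Pool.Agent.DY17.Push

set_option autoImplicit false

/-!
# Four members with small `W` (helper file for MP_d6084f_co)

Paper proof. For `b` let `φ b` be a member of `G` minimising the number of `i ∈ A` with
`b i = false`. `bad l` = the `c : Fin N → Fin 7` with more than `s` such points for
`b = inc l ∘ c`, `A = φ b`; by `push` (with the indicator of the set of `far` for `s + 1`) and
`far`, `μ (bad l) ≤ exp (-(s+1)^2/(4k)) / δ ≤ 1 / (4 (k + 2))`. Let
`Y c = #{i ∈ φ (inc 3 ∘ c) | 4 ≤ c i}`; by `avg` `∑ c, μ c * Y c ≤ (5p-2)/(2p) * k`. The words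
outside all `bad l` have weight at least `1 - 1/(k+2) = (k+1)/(k+2)`, so one of them, `c`, has
`Y c ≤ (5p-2)/(2p) * k * (k+2)/(k+1) ≤ (5p-2)/(2p) * k + 1`. Put `A l = φ (inc l ∘ c)`. A point
`i` of `W` that is not counted in `Y c` lies in some `A l` with `inc l (c i) = false` (at most
`4 s` such points).
-/

namespace Pool.Agent.DY17

theorem mu_nn {Ω : Type} {w : Ω → ℝ} (hw : ∀ o, 0 ≤ w o) {N : ℕ} (x : Fin N → Ω) :
    0 ≤ mu w x := Finset.prod_nonneg fun i _ => hw (x i)

theorem mu_tot {Ω : Type} [Fintype Ω] {w : Ω → ℝ} (hw1 : ∑ o, w o = 1)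
    (N : ℕ) : ∑ x : Fin N → Ω, mu w x = 1 := by
  classical
  have h := Finset.prod_univ_sum (fun _ : Fin N => (Finset.univ : Finset Ω)) (fun _ o => w o)
  rw [Fintype.piFinset_univ] at h
  unfold mu
  rw [← h, Finset.prod_congr rfl fun _ _ => hw1, Finset.prod_const_one]

theorem inc_cases : ∀ o : Fin 7, (inc 3 o = false ∨ (o = 4 ∨ o = 5 ∨ o = 6) ∨
    (inc 0 o = false ∧ inc 1 o = false ∧ inc 2 o = false)) ∧
    (inc 0 o = false ∨ inc 1 o = false ∨ inc 2 o = false) := by
  decide

theorem outcome (N k s : ℕ) (hk : 0 < k) (p : ℝ) (hp : 2 / 5 ≤ p) (hp1 : p ≤ 2 / 3)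
    (G : Finset (Finset (Fin N))) (hG : ∀ A ∈ G, A.card ≤ k) (δ : ℝ) (hδ : 0 < δ)
    (hd : δ ≤ ∑ b : Fin N → Bool with (∃ A ∈ G, ∀ i ∈ A, b i = true), mu (bern p) b)
    (hs : Real.exp (-(((s : ℝ) + 1) ^ 2 / (4 * k))) / δ ≤ 1 / (4 * ((k : ℝ) + 2))) :
    ∃ A : Fin 4 → Finset (Fin N), (∀ l, A l ∈ G) ∧
      (((A 3 ∩ (A 0 ∪ A 1 ∪ A 2)) ∪ (A 0 ∩ A 1 ∩ A 2)).card : ℝ)
        ≤ 4 * s + (5 * p - 2) / (2 * p) * k + 1 := by
  classical
  have hp0 : 0 < p := by linarith
  have hkr : (0 : ℝ) < k := by exact_mod_cast hk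
  -- `G` is not empty
  have hGne : G.Nonempty := by
    rw [Finset.nonempty_iff_ne_empty]
    rintro rfl
    have h1 : (∑ b : Fin N → Bool with (∃ A ∈ (∅ : Finset (Finset (Fin N))), ∀ i ∈ A, b i = true),
        mu (bern p) b) = 0 := by
      apply Finset.sum_eq_zero
      intro b hb
      rw [Finset.mem_filter] at hb
      obtain ⟨-, A, hA, -⟩ := hb
      exact absurd hA (Finset.notMem_empty A)
    linarith
  -- the best members
  have hφ : ∀ b : Fin N → Bool, ∃ A ∈ G, ∀ B ∈ G,
      (A.filter (fun i => b i = false)).card ≤ (B.filter (fun i => b i = false)).card :=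
    fun b => Finset.exists_min_image G (fun A => (A.filter (fun i => b i = false)).card) hGne
  choose φ hφG hφm using hφ
  have hw : ∀ o, 0 ≤ wt p o := wt_nonneg p hp hp1
  have hb0 : ∀ o, 0 ≤ bern p o := by
    intro o
    unfold bern
    split_ifs <;> linarith
  let X : Fin 4 → (Fin N → Fin 7) → Finset (Fin N) := fun l c => φ (fun i => inc l (c i))
  let bad : Fin 4 → Finset (Fin N → Fin 7) := fun l => Finset.univ.filter fun c =>
    s + 1 ≤ ((X l c).filter (fun i => inc l (c i) = false)).card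
  have hbad : ∀ l, ∑ c ∈ bad l, mu (wt p) c ≤ 1 / (4 * ((k : ℝ) + 2)) := by
    intro l
    have h1 := push (inc l) (wt p) (bern p) (wt_inc p l) N
      (fun b => if s + 1 ≤ ((φ b).filter (fun i => b i = false)).card then 1 else 0)
    have h2 : ∑ c ∈ bad l, mu (wt p) c = ∑ c : Fin N → Fin 7, mu (wt p) c *
        (if s + 1 ≤ ((φ (fun i => inc l (c i))).filter (fun i => inc l (c i) = false)).card
          then 1 else 0) := by
      simp only [bad, X]
      rw [Finset.sum_filter]
      refine Finset.sum_congr rfl fun c _ => ?_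
      rw [mul_ite, mul_one, mul_zero]
    rw [h2, h1]
    have h3 := far N k (s + 1) hk p hp0.le (by linarith) G hG δ hδ hd
    push_cast at h3
    refine le_trans ?_ (h3.trans hs)
    have h4 : ∑ b : Fin N → Bool, mu (bern p) b *
        (if s + 1 ≤ ((φ b).filter (fun i => b i = false)).card then 1 else 0) =
        ∑ b : Fin N → Bool with s + 1 ≤ ((φ b).filter (fun i => b i = false)).card,
          mu (bern p) b := by
      rw [Finset.sum_filter]
      refine Finset.sum_congr rfl fun b _ => ?_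
      rw [mul_ite, mul_one, mul_zero]
    rw [h4]
    refine Finset.sum_le_sum_of_subset_of_nonneg ?_ fun b _ _ => mu_nn hb0 b
    intro b hb
    rw [Finset.mem_filter] at hb ⊢
    exact ⟨hb.1, fun A hA => hb.2.trans (hφm b A hA)⟩
  -- the function `Y`
  let h : Fin 7 → (Fin N → Fin 7) → ℝ := fun o c => (((X 3 c).filter (fun i => c i = o)).card : ℝ)
  let Y : (Fin N → Fin 7) → ℝ := fun c => h 4 c + h 5 c + h 6 c
  have hh0 : ∀ o c, 0 ≤ h o c := fun o c => Nat.cast_nonneg _
  have hY0 : ∀ c, 0 ≤ Y c := by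
    intro c
    have := hh0 4 c
    have := hh0 5 c
    have := hh0 6 c
    simp only [Y]
    linarith
  set m : ℝ := (5 * p - 2) / (2 * p) with hm
  have hm0 : 0 ≤ m := div_nonneg (by linarith) (by linarith)
  have hm1 : m ≤ 1 := by
    rw [hm, div_le_one (by linarith)]
    linarith
  have hav : ∀ o, inc 3 o = true → ∑ c, mu (wt p) c * h o c ≤ wt p o / p * k := fun o ho =>
    avg N k p hp hp1 3 o ho φ (fun b => hG _ (hφG b))
  have hYs : ∑ c, mu (wt p) c * Y c ≤ m * k := by
    have h1 : ∑ c, mu (wt p) c * Y c = (∑ c, mu (wt p) c * h 4 c) +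
        (∑ c, mu (wt p) c * h 5 c) + (∑ c, mu (wt p) c * h 6 c) := by
      rw [← Finset.sum_add_distrib, ← Finset.sum_add_distrib]
      refine Finset.sum_congr rfl fun c _ => ?_
      simp only [Y]
      ring
    have h2 := hav 4 (by decide)
    have h3 := hav 5 (by decide)
    have h4 := hav 6 (by decide)
    have w4 : wt p 4 = (5 * p - 2) / 6 := by simp [wt]
    have w5 : wt p 5 = (5 * p - 2) / 6 := by simp [wt]
    have w6 : wt p 6 = (5 * p - 2) / 6 := by simp [wt]
    rw [w4] at h2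
    rw [w5] at h3
    rw [w6] at h4
    have h5 : m * k = (5 * p - 2) / 6 / p * k + (5 * p - 2) / 6 / p * k
        + (5 * p - 2) / 6 / p * k := by
      rw [hm]
      field_simp
      ring
    rw [h1, h5]
    linarith
  -- the good words
  set Gd : Finset (Fin N → Fin 7) := Finset.univ \ Finset.univ.biUnion bad with hGd
  have hGs : ((k : ℝ) + 1) / (k + 2) ≤ ∑ c ∈ Gd, mu (wt p) c := by
    have h1 : ∑ c ∈ Gd, mu (wt p) c + ∑ c ∈ Finset.univ.biUnion bad, mu (wt p) c = 1 := by
      rw [hGd, Finset.sum_sdiff (Finset.subset_univ _)]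
      exact mu_tot (wt_sum p) N
    have h2 : ∑ c ∈ Finset.univ.biUnion bad, mu (wt p) c ≤
        ∑ l : Fin 4, ∑ c ∈ bad l, mu (wt p) c := by
      have h3 : ∀ S : Finset (Fin 4), ∑ c ∈ S.biUnion bad, mu (wt p) c ≤
          ∑ l ∈ S, ∑ c ∈ bad l, mu (wt p) c := by
        intro S
        induction S using Finset.induction_on with
        | empty => simp
        | insert a S ha ih =>
          rw [Finset.biUnion_insert, Finset.sum_insert ha]
          have h4 := Finset.sum_union_inter (s₁ := bad a) (s₂ := S.biUnion bad)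
            (f := fun c => mu (wt p) c)
          have h5 : 0 ≤ ∑ c ∈ bad a ∩ S.biUnion bad, mu (wt p) c :=
            Finset.sum_nonneg fun c _ => mu_nn hw c
          linarith
      exact h3 Finset.univ
    have h3 : ∑ l : Fin 4, ∑ c ∈ bad l, mu (wt p) c ≤ 4 * (1 / (4 * ((k : ℝ) + 2))) := by
      refine (Finset.sum_le_sum fun l _ => hbad l).trans (le_of_eq ?_)
      simp
    have h4 : 4 * (1 / (4 * ((k : ℝ) + 2))) = 1 / ((k : ℝ) + 2) := by
      field_simp
    have h5 : ((k : ℝ) + 1) / (k + 2) = 1 - 1 / ((k : ℝ) + 2) := by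
      field_simp
      ring
    linarith
  set T : ℝ := m * k * ((k + 2) / (k + 1)) with hT
  have hT0 : 0 ≤ T := by positivity
  obtain ⟨c, hcG, hcY⟩ : ∃ c ∈ Gd, Y c ≤ T := by
    by_contra hcon
    push Not at hcon
    have hpos : 0 < ∑ c ∈ Gd, mu (wt p) c := lt_of_lt_of_le (by positivity) hGs
    have h1 : T * ∑ c ∈ Gd, mu (wt p) c < ∑ c ∈ Gd, mu (wt p) c * Y c := by
      rw [Finset.mul_sum]
      obtain ⟨c0, hc0, hc0p⟩ := Finset.exists_lt_of_sum_lt (s := Gd) (f := fun _ => (0 : ℝ))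
        (g := fun c => mu (wt p) c) (by simpa using hpos)
      refine Finset.sum_lt_sum (fun c hc => ?_) ⟨c0, hc0, ?_⟩
      · rw [mul_comm]
        exact mul_le_mul_of_nonneg_left (hcon c hc).le (mu_nn hw c)
      · rw [mul_comm]
        exact mul_lt_mul_of_pos_left (hcon c0 hc0) hc0p
    have h2 : ∑ c ∈ Gd, mu (wt p) c * Y c ≤ ∑ c, mu (wt p) c * Y c :=
      Finset.sum_le_sum_of_subset_of_nonneg (Finset.subset_univ _)
        fun c _ _ => mul_nonneg (mu_nn hw c) (hY0 c)
    have h3 : T * (((k : ℝ) + 1) / (k + 2)) ≤ T * ∑ c ∈ Gd, mu (wt p) c :=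
      mul_le_mul_of_nonneg_left hGs hT0
    have h4 : T * (((k : ℝ) + 1) / (k + 2)) = m * k := by
      rw [hT]
      field_simp
    linarith
  refine ⟨fun l => X l c, fun l => hφG _, ?_⟩
  have hgood : ∀ l, (((X l c).filter (fun i => inc l (c i) = false)).card : ℝ) ≤ s := by
    intro l
    have h1 : c ∉ bad l := by
      intro hc
      rw [hGd, Finset.mem_sdiff] at hcG
      exact hcG.2 (Finset.mem_biUnion.2 ⟨l, Finset.mem_univ _, hc⟩)
    simp only [bad, Finset.mem_filter, Finset.mem_univ, true_and, not_le] at h1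
    exact_mod_cast Nat.lt_succ_iff.1 h1
  -- counting
  set W : Finset (Fin N) := (X 3 c ∩ (X 0 c ∪ X 1 c ∪ X 2 c)) ∪ (X 0 c ∩ X 1 c ∩ X 2 c) with hW
  have hWmem : ∀ i, i ∈ W ↔ (i ∈ X 3 c ∧ (i ∈ X 0 c ∨ i ∈ X 1 c ∨ i ∈ X 2 c)) ∨
      (i ∈ X 0 c ∧ i ∈ X 1 c ∧ i ∈ X 2 c) := by
    intro i
    rw [hW]
    simp only [Finset.mem_union, Finset.mem_inter]
    tauto
  set U : Finset (Fin N) := Finset.univ.biUnion
    (fun l : Fin 4 => (X l c).filter (fun i => inc l (c i) = false)) with hU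
  set V : Fin 7 → Finset (Fin N) := fun o => (X 3 c).filter (fun i => c i = o) with hV
  have hsub : W ⊆ U ∪ (V 4 ∪ V 5 ∪ V 6) := by
    intro i hi
    rw [hWmem] at hi
    obtain ⟨ha, hb⟩ := inc_cases (c i)
    have key : ∀ l, i ∈ X l c → inc l (c i) = false → i ∈ U ∪ (V 4 ∪ V 5 ∪ V 6) :=
      fun l h1 h2 => Finset.mem_union_left _ (Finset.mem_biUnion.2
        ⟨l, Finset.mem_univ _, Finset.mem_filter.2 ⟨h1, h2⟩⟩)
    rcases hi with ⟨h3, h012⟩ | ⟨h0, h1, h2⟩
    · rcases ha with ha | ha | ⟨ha0, ha1, ha2⟩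
      · exact key 3 h3 ha
      · apply Finset.mem_union_right
        rw [Finset.mem_union, Finset.mem_union]
        rcases ha with ha | ha | ha
        · exact Or.inl (Or.inl (Finset.mem_filter.2 ⟨h3, ha⟩))
        · exact Or.inl (Or.inr (Finset.mem_filter.2 ⟨h3, ha⟩))
        · exact Or.inr (Finset.mem_filter.2 ⟨h3, ha⟩)
      · rcases h012 with h | h | h
        · exact key 0 h ha0
        · exact key 1 h ha1
        · exact key 2 h ha2
    · rcases hb with hb | hb | hb
      · exact key 0 h0 hb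
      · exact key 1 h1 hb
      · exact key 2 h2 hb
  have hUc : (U.card : ℝ) ≤ 4 * s := by
    have h2 : (U.card : ℝ) ≤
        ∑ l : Fin 4, (((X l c).filter (fun i => inc l (c i) = false)).card : ℝ) := by
      exact_mod_cast Finset.card_biUnion_le
    refine h2.trans ((Finset.sum_le_sum fun l _ => hgood l).trans (le_of_eq ?_))
    simp
  have hWc : (W.card : ℝ) ≤ U.card + ((V 4).card + (V 5).card + (V 6).card) := by
    have h1 := Finset.card_le_card hsub
    have h2 := Finset.card_union_le U (V 4 ∪ V 5 ∪ V 6)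
    have h3 := Finset.card_union_le (V 4 ∪ V 5) (V 6)
    have h4 := Finset.card_union_le (V 4) (V 5)
    have h5 : W.card ≤ U.card + ((V 4).card + (V 5).card + (V 6).card) := by omega
    exact_mod_cast h5
  have hVY : ((V 4).card : ℝ) + (V 5).card + (V 6).card = Y c := rfl
  have h3 : T ≤ m * k + 1 := by
    have h4 : T = m * k + m * (k / (k + 1)) := by
      rw [hT]
      field_simp
      ring
    have h5 : (k : ℝ) / (k + 1) ≤ 1 := by
      rw [div_le_one (by linarith)]
      linarith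
    have h6 : m * (k / (k + 1)) ≤ 1 * 1 := mul_le_mul hm1 h5 (by positivity) (by norm_num)
    rw [h4]
    linarith
  linarith

end Pool.Agent.DY17
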