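import Pool.Agent.DY17.Tal

set_option autoImplicit false

/-!
# Images of product weights (helper file for MP_d6084f_co), helper74
-/

namespace Pool.Agent.DY17.PushS74

open Finset

theorem push_gen {Ω Ω' : Type} [Fintype Ω] [DecidableEq Ω] [Fintype Ω'] [DecidableEq Ω']
    (π : Ω → Ω') (N : ℕ) (W : Fin N → Ω → ℝ) (W' : Fin N → Ω' → ℝ)
    (h : ∀ i o', ∑ o with π o = o', W i o = W' i o') (f : (Fin N → Ω') → ℝ) :
    ∑ c : Fin N → Ω, (∏ i, W i (c i)) * f (fun i => π (c i)) =
      ∑ b : Fin N → Ω', (∏ i, W' i (b i)) * f b := by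
  classical
  rw [← Finset.sum_fiberwise (s := Finset.univ) (g := fun c : Fin N → Ω => fun i => π (c i))]
  refine Finset.sum_congr rfl fun b _ => ?_
  have h1 : ∀ c ∈ Finset.univ.filter (fun c : Fin N → Ω => (fun i => π (c i)) = b),
      (∏ i, W i (c i)) * f (fun i => π (c i)) = (∏ i, W i (c i)) * f b := by
    intro c hc
    rw [(Finset.mem_filter.1 hc).2]
  rw [Finset.sum_congr rfl h1, ← Finset.sum_mul]
  congr 1
  have h2 : (Finset.univ.filter fun c : Fin N → Ω => (fun i => π (c i)) = b) =
      Fintype.piFinset (fun i => Finset.univ.filter fun o => π o = b i) := by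
    ext c
    simp [Fintype.mem_piFinset, funext_iff]
  rw [h2, ← Finset.prod_univ_sum]
  exact Finset.prod_congr rfl fun i _ => h i (b i)

theorem push {Ω Ω' : Type} [Fintype Ω] [DecidableEq Ω] [Fintype Ω'] [DecidableEq Ω']
    (π : Ω → Ω') (w : Ω → ℝ) (w' : Ω' → ℝ) (h : ∀ o', ∑ o with π o = o', w o = w' o') (N : ℕ)
    (f : (Fin N → Ω') → ℝ) :
    ∑ c : Fin N → Ω, mu w c * f (fun i => π (c i)) = ∑ b : Fin N → Ω', mu w' b * f b :=
  push_gen π N (fun _ => w) (fun _ => w') (fun _ o' => h o') f

theorem push_at {Ω Ω' : Type} [Fintype Ω] [DecidableEq Ω] [Fintype Ω'] [DecidableEq Ω']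
    (π : Ω → Ω') (w : Ω → ℝ) (w' : Ω' → ℝ) (h : ∀ o', ∑ o with π o = o', w o = w' o') (N : ℕ)
    (f : (Fin N → Ω') → ℝ) (i : Fin N) (o : Ω) :
    w' (π o) * ∑ c : Fin N → Ω, (if c i = o then mu w c * f (fun i => π (c i)) else 0)
      = w o * ∑ b : Fin N → Ω', (if b i = π o then mu w' b * f b else 0) := by
  classical
  have key := push_gen π N (fun j x => if j = i then (if x = o then w o else 0) else w x)
    (fun j y => if j = i then (if y = π o then w o else 0) else w' y) (by
      intro j y
      by_cases hj : j = i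
      · simp only [hj, if_true]
        rw [Finset.sum_ite_eq']
        by_cases hy : y = π o
        · rw [if_pos hy, if_pos (by simp [hy])]
        · rw [if_neg hy, if_neg (by simpa using fun h' => hy h'.symm)]
      · simp only [hj, if_false]
        exact h y) f
  have e1 : ∀ c : Fin N → Ω, (if c i = o then mu w c * f (fun i => π (c i)) else 0) =
      (∏ j, if j = i then (if c j = o then w o else 0) else w (c j)) * f (fun i => π (c i)) := by
    intro c
    unfold mu
    rw [← Finset.mul_prod_erase Finset.univ (fun j => w (c j)) (Finset.mem_univ i),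
      ← Finset.mul_prod_erase Finset.univ
        (fun j => if j = i then (if c j = o then w o else 0) else w (c j)) (Finset.mem_univ i)]
    have e2 : ∏ j ∈ Finset.univ.erase i, (if j = i then (if c j = o then w o else 0) else w (c j)) =
        ∏ j ∈ Finset.univ.erase i, w (c j) :=
      Finset.prod_congr rfl fun j hj => if_neg (Finset.ne_of_mem_erase hj)
    rw [e2]
    by_cases hc : c i = o
    · rw [if_pos hc, if_pos rfl, if_pos hc, hc]
    · rw [if_neg hc, if_pos rfl, if_neg hc, zero_mul, zero_mul]
  have e3 : ∀ b : Fin N → Ω', w o * (if b i = π o then mu w' b * f b else 0) =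
      w' (π o) * ((∏ j, if j = i then (if b j = π o then w o else 0) else w' (b j)) * f b) := by
    intro b
    unfold mu
    rw [← Finset.mul_prod_erase Finset.univ (fun j => w' (b j)) (Finset.mem_univ i),
      ← Finset.mul_prod_erase Finset.univ
        (fun j => if j = i then (if b j = π o then w o else 0) else w' (b j)) (Finset.mem_univ i)]
    have e2 : ∏ j ∈ Finset.univ.erase i,
        (if j = i then (if b j = π o then w o else 0) else w' (b j)) =
        ∏ j ∈ Finset.univ.erase i, w' (b j) :=
      Finset.prod_congr rfl fun j hj => if_neg (Finset.ne_of_mem_erase hj)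
    rw [e2]
    by_cases hc : b i = π o
    · rw [if_pos hc, if_pos rfl, if_pos hc, hc]
      ring
    · rw [if_neg hc, if_pos rfl, if_neg hc]
      ring
  rw [Finset.mul_sum (f := fun b : Fin N → Ω' => if b i = π o then mu w' b * f b else 0),
    Finset.sum_congr rfl fun b _ => e3 b, ← Finset.mul_sum, ← key,
    Finset.sum_congr rfl fun c _ => e1 c]

end Pool.Agent.DY17.PushS74
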