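import Pool.Agent.DY17.Cert
import Pool.Agent.DY17.PushS74

set_option autoImplicit false

/-!
# Images of product weights (helper file for MP_d6084f_co)

`push`: image of a product weight under a map applied to every coordinate (group the words `c` by
`π ∘ c`; the fibre of `b` is the product of the fibres, `Finset.prod_univ_sum` /
`Fintype.piFinset`; or induction on `N` with `Fin.cons`).
`push_at`: the same with the value of one coordinate prescribed (replace `w` at the coordinate `i`
by `w` restricted to the letter `o`; or induction).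

Types: the letters 0, 1, 2, 3, 4, 5, 6 stand for the types 12, 13, 23, 4, 124, 134, 234.
-/

namespace Pool.Agent.DY17

theorem push {Ω Ω' : Type} [Fintype Ω] [DecidableEq Ω] [Fintype Ω'] [DecidableEq Ω']
    (π : Ω → Ω') (w : Ω → ℝ) (w' : Ω' → ℝ) (h : ∀ o', ∑ o with π o = o', w o = w' o') (N : ℕ)
    (f : (Fin N → Ω') → ℝ) :
    ∑ c : Fin N → Ω, mu w c * f (fun i => π (c i)) = ∑ b : Fin N → Ω', mu w' b * f b :=
  PushS74.push π w w' h N f

theorem push_at {Ω Ω' : Type} [Fintype Ω] [DecidableEq Ω] [Fintype Ω'] [DecidableEq Ω']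
    (π : Ω → Ω') (w : Ω → ℝ) (w' : Ω' → ℝ) (h : ∀ o', ∑ o with π o = o', w o = w' o') (N : ℕ)
    (f : (Fin N → Ω') → ℝ) (i : Fin N) (o : Ω) :
    w' (π o) * ∑ c : Fin N → Ω, (if c i = o then mu w c * f (fun i => π (c i)) else 0)
      = w o * ∑ b : Fin N → Ω', (if b i = π o then mu w' b * f b else 0) :=
  PushS74.push_at π w w' h N f i o

/-- the letters of the members `A 0, ..., A 3` -/
def inc (l : Fin 4) (o : Fin 7) : Bool :=
  (![![true, true, false, false, true, true, false], ![true, false, true, false, true, false, true],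
    ![false, true, true, false, false, true, true],
    ![false, false, false, true, true, true, true]] : Fin 4 → Fin 7 → Bool) l o

/-- the weights of the letters -/
noncomputable def wt (p : ℝ) : Fin 7 → ℝ :=
  ![(1 - p) / 3, (1 - p) / 3, (1 - p) / 3, (2 - 3 * p) / 2, (5 * p - 2) / 6, (5 * p - 2) / 6,
    (5 * p - 2) / 6]

theorem wt_nonneg (p : ℝ) (hp : 2 / 5 ≤ p) (hp1 : p ≤ 2 / 3) (o : Fin 7) : 0 ≤ wt p o := by
  fin_cases o <;> simp [wt] <;> linarith

theorem wt_sum (p : ℝ) : ∑ o, wt p o = 1 := by
  rw [Fin.sum_univ_seven]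
  simp [wt]
  ring

theorem wt_inc (p : ℝ) (l : Fin 4) (b : Bool) : ∑ o with inc l o = b, wt p o = bern p b := by
  rw [Finset.sum_filter, Fin.sum_univ_seven]
  fin_cases l <;> cases b <;> simp [wt, inc, bern] <;> ring

lemma push27_mu_nonneg {Ω : Type} (w : Ω → ℝ) (hw : ∀ o, 0 ≤ w o) {N : ℕ} (b : Fin N → Ω) :
    0 ≤ mu w b := by
  unfold mu
  exact Finset.prod_nonneg fun i _ => hw _

lemma push27_mu_sum {Ω : Type} [Fintype Ω] [DecidableEq Ω] (w : Ω → ℝ) (hw : ∑ o, w o = 1)
    (N : ℕ) : ∑ b : Fin N → Ω, mu w b = 1 := by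
  unfold mu
  have h := Finset.prod_univ_sum (fun _ : Fin N => (Finset.univ : Finset Ω)) (fun _ o => w o)
  rw [Fintype.piFinset_univ] at h
  rw [← h]
  simp only [hw, Finset.prod_const_one]

/-- the mean number of points of a given type in a set chosen from the points containing `l` -/
theorem avg (N k : ℕ) (p : ℝ) (hp : 2 / 5 ≤ p) (hp1 : p ≤ 2 / 3) (l : Fin 4) (o : Fin 7)
    (ho : inc l o = true)
    (φ : (Fin N → Bool) → Finset (Fin N)) (hφ : ∀ b, (φ b).card ≤ k) :
    ∑ c : Fin N → Fin 7, mu (wt p) c *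
      (((φ (fun i => inc l (c i))).filter (fun i => c i = o)).card : ℝ)
      ≤ wt p o / p * k := by
  have hp0 : 0 < p := by linarith
  have hb0 : ∀ o, 0 ≤ bern p o := by
    intro o
    cases o <;> simp [bern] <;> linarith
  have hb1 : ∑ o, bern p o = 1 := by
    rw [Fintype.sum_bool]
    simp [bern]
  have hr : 0 ≤ wt p o / p := div_nonneg (wt_nonneg p hp hp1 o) hp0.le
  -- one coordinate
  have h1 : ∀ i : Fin N, ∑ c : Fin N → Fin 7, (if c i = o then
      mu (wt p) c * (if i ∈ φ (fun i => inc l (c i)) then (1 : ℝ) else 0) else 0) ≤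
      wt p o / p *
        ∑ b : Fin N → Bool, mu (bern p) b * (if i ∈ φ b then (1 : ℝ) else 0) := by
    intro i
    have h2 := push_at (inc l) (wt p) (bern p) (fun b => wt_inc p l b) N
      (fun b => if i ∈ φ b then (1 : ℝ) else 0) i o
    rw [ho] at h2
    have h3 : bern p true = p := by simp [bern]
    rw [h3] at h2
    have h5 : ∑ b : Fin N → Bool, (if b i = true then
        mu (bern p) b * (if i ∈ φ b then (1 : ℝ) else 0) else 0) ≤
        ∑ b : Fin N → Bool, mu (bern p) b * (if i ∈ φ b then (1 : ℝ) else 0) := by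
      apply Finset.sum_le_sum
      intro b _
      have h6 : 0 ≤ mu (bern p) b * (if i ∈ φ b then (1 : ℝ) else 0) := by
        apply mul_nonneg (push27_mu_nonneg _ hb0 b)
        split_ifs <;> norm_num
      by_cases h7 : b i = true
      · rw [if_pos h7]
      · rw [if_neg h7]
        exact h6
    have h8 : ∑ c : Fin N → Fin 7, (if c i = o then
        mu (wt p) c * (if i ∈ φ (fun i => inc l (c i)) then (1 : ℝ) else 0) else 0) =
        wt p o / p * ∑ b : Fin N → Bool, (if b i = true then
        mu (bern p) b * (if i ∈ φ b then (1 : ℝ) else 0) else 0) := by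
      rw [div_mul_eq_mul_div, eq_div_iff (by positivity)]
      linear_combination h2
    rw [h8]
    exact mul_le_mul_of_nonneg_left h5 hr
  have h9 : ∀ c : Fin N → Fin 7, mu (wt p) c *
      (((φ (fun i => inc l (c i))).filter (fun i => c i = o)).card : ℝ) =
      ∑ i : Fin N, (if c i = o then
      mu (wt p) c * (if i ∈ φ (fun i => inc l (c i)) then (1 : ℝ) else 0) else 0) := by
    intro c
    rw [Finset.card_filter, Nat.cast_sum, Finset.mul_sum,
      ← Finset.sum_subset (Finset.subset_univ (φ (fun i => inc l (c i))))]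
    · apply Finset.sum_congr rfl
      intro i hi
      rw [if_pos hi]
      split_ifs <;> simp
    · intro i _ hi
      rw [if_neg hi]
      simp
  rw [Finset.sum_congr rfl (fun c _ => h9 c), Finset.sum_comm]
  refine (Finset.sum_le_sum (fun i _ => h1 i)).trans ?_
  rw [← Finset.mul_sum, Finset.sum_comm]
  apply mul_le_mul_of_nonneg_left _ hr
  have h10 : ∀ b : Fin N → Bool, ∑ i : Fin N, mu (bern p) b * (if i ∈ φ b then (1 : ℝ) else 0) ≤
      mu (bern p) b * k := by
    intro b
    rw [← Finset.mul_sum]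
    apply mul_le_mul_of_nonneg_left _ (push27_mu_nonneg _ hb0 b)
    rw [Finset.sum_ite_mem, Finset.univ_inter, Finset.sum_const, nsmul_eq_mul, mul_one]
    exact_mod_cast hφ b
  refine (Finset.sum_le_sum (fun b _ => h10 b)).trans ?_
  rw [← Finset.sum_mul, push27_mu_sum _ hb1, one_mul]

end Pool.Agent.DY17
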