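import Mathlib

set_option autoImplicit false

/-!
# Talagrand's convex distance inequality on a finite weighted product (helper file, MP_d6084f_co)

Paper proof of `talagrand`. Induction on `N`; `N = 0`: `g = 0`, `ν` the point mass. Step: split off
the coordinate `0`; for a letter `o` let `A_o = {x | Fin.cons o x ∈ A}` and
`A_* = {x | ∃ o, Fin.cons o x ∈ A}`, `a_o = μ A_o`, `b = μ A_*`; `a_o ≤ b`, `μ A = ∑ w o * a_o ≤ b`,
so `b > 0`. It is enough to find for every `o` a function `G_o` with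
(1) for every `x` a probability `ν` on `A` with
`∑ i, (∑ y with y i ≠ (Fin.cons o x) i, ν y) ^ 2 ≤ G_o x`, and
(2) `(∑ x, μ x * exp (G_o x / 4)) * b ^ 2 ≤ 2 * b - a_o`,
because then `g (Fin.cons o x) = G_o x` gives `(∑ μ exp (g/4)) * b ^ 2 ≤ 2 * b - μ A` and
`μ A * (2 * b - μ A) ≤ b ^ 2`.
Let `g_*` be the function of `A_*` (induction). If `a_o < exp (-1/2) * b` take `G_o = 1 + g_*`, the
`ν` being lifted from `A_*` to `A` by a choice of the letter: `exp (1/4) ≤ 2 - exp (-1/2)`.
If `a_o ≥ exp (-1/2) * b` let `g_o` be the function of `A_o`, `L = log (a_o / b) ∈ [-1/2, 0]`,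
`θ = 1 + 2 * L ∈ [0, 1]`, `G_o = (1 - θ) ^ 2 + θ * g_o + (1 - θ) * g_*`, `ν` the mixture with
weights `θ`, `1 - θ` of the two measures. By convexity of exp,
`exp (θ * (log a_o + g_o / 4) + (1 - θ) * (log b + g_* / 4)) ≤ θ a_o exp (g_o/4) + (1-θ) b exp (g_*/4)`,
and the `μ`-sum of the right side is at most 1; so
`∑ μ exp (G_o / 4) ≤ exp ((1 - θ) ^ 2 / 4 - θ * log a_o - (1 - θ) * log b) = exp (-L - L ^ 2) / b`,
and `exp (-L - L ^ 2) ≤ 2 - exp L` (`one_var`).
-/

namespace Pool.Agent.DY17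

/-- the product weight -/
noncomputable def mu {Ω : Type} (w : Ω → ℝ) {N : ℕ} (x : Fin N → Ω) : ℝ := ∏ i, w (x i)

/-- with `u = -L`: `exp (u - u ^ 2) + exp (-u) ≤ 2` on `[0, 1/2]` -/
theorem one_var (L : ℝ) (h0 : L ≤ 0) (h1 : -(1 / 2) ≤ L) :
    Real.exp (-L - L ^ 2) ≤ 2 - Real.exp L := by
  obtain ⟨u, hu⟩ : ∃ u : ℝ, u = -L := ⟨_, rfl⟩
  have hL : L = -u := by rw [hu, neg_neg]
  have hu0 : 0 ≤ u := by rw [hu]; linarith
  have hu1 : u ≤ 1 / 2 := by rw [hu]; linarith
  subst hL
  have hv : -(-u) - (-u) ^ 2 = u - u ^ 2 := by ring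
  rw [hv]
  have hv0 : 0 ≤ u - u ^ 2 := by nlinarith
  have hv1 : u - u ^ 2 ≤ 1 := by nlinarith
  have a1 := Real.exp_bound' hv0 hv1 (n := 3) (by norm_num)
  have a2 := Real.exp_bound (x := -u) (by rw [abs_neg, abs_of_nonneg hu0]; linarith) (n := 4)
    (by norm_num)
  rw [abs_neg, abs_of_nonneg hu0] at a2
  have a3 := (abs_le.1 a2).2
  simp only [Finset.sum_range_succ, Finset.sum_range_zero] at a1 a3
  norm_num [Nat.factorial] at a1 a3
  have p3 : 0 ≤ u ^ 3 := pow_nonneg hu0 3
  have p4 : 0 ≤ u ^ 4 := pow_nonneg hu0 4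
  have p6 : 0 ≤ u ^ 6 := pow_nonneg hu0 6
  have p5 : u ^ 5 ≤ u ^ 3 / 4 := by
    have : u ^ 5 = u ^ 3 * u ^ 2 := by ring
    have h2 : u ^ 2 ≤ 1 / 4 := by nlinarith
    rw [this]
    nlinarith [mul_le_mul_of_nonneg_left h2 p3]
  nlinarith [a1, a3, p3, p4, p5, p6]

section

set_option linter.unusedSectionVars false

variable {Ω : Type} [Fintype Ω] [DecidableEq Ω]

/-- mismatch at coordinate `i` -/
noncomputable def mis {N : ℕ} (ν : (Fin N → Ω) → ℝ) (x : Fin N → Ω) (i : Fin N) : ℝ :=
  ∑ y with y i ≠ x i, ν y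

lemma mis_eq {N : ℕ} (ν : (Fin N → Ω) → ℝ) (x : Fin N → Ω) (i : Fin N) :
    mis ν x i = ∑ y, ν y * (if y i ≠ x i then 1 else 0) := by
  unfold mis
  rw [Finset.sum_filter]
  refine Finset.sum_congr rfl (fun y _ => ?_)
  split_ifs <;> simp

/-- lift a weight on `Fin N → Ω` by a choice of the first letter -/
def lift {N : ℕ} (σ : (Fin N → Ω) → Ω) (ν : (Fin N → Ω) → ℝ) (y : Fin (N + 1) → Ω) : ℝ :=
  if y 0 = σ (Fin.tail y) then ν (Fin.tail y) else 0

lemma sum_cons {N : ℕ} (f : (Fin (N + 1) → Ω) → ℝ) :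
    ∑ y, f y = ∑ o, ∑ x : Fin N → Ω, f (Fin.cons o x) := by
  rw [← Fintype.sum_prod_type']
  symm
  refine Fintype.sum_equiv (Fin.consEquiv (fun _ => Ω)) _ _ ?_
  rintro ⟨y, x⟩
  simp [Fin.consEquiv]

lemma lift_sum {N : ℕ} (σ : (Fin N → Ω) → Ω) (ν : (Fin N → Ω) → ℝ)
    (f : (Fin (N + 1) → Ω) → ℝ) :
    ∑ y, lift σ ν y * f y = ∑ x, ν x * f (Fin.cons (σ x) x) := by
  rw [sum_cons, Finset.sum_comm]
  refine Finset.sum_congr rfl (fun x _ => ?_)
  rw [Finset.sum_eq_single (σ x)]
  · simp [lift]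
  · intro o _ ho
    simp [lift, ho]
  · intro h
    exact absurd (Finset.mem_univ _) h

lemma mu_cons (w : Ω → ℝ) {N : ℕ} (o : Ω) (x : Fin N → Ω) :
    mu w (Fin.cons o x : Fin (N + 1) → Ω) = w o * mu w x := by
  simp [mu, Fin.prod_univ_succ]

lemma mu_nonneg (w : Ω → ℝ) (hw : ∀ o, 0 ≤ w o) {N : ℕ} (x : Fin N → Ω) : 0 ≤ mu w x :=
  Finset.prod_nonneg (fun _ _ => hw _)

/-- a probability on `A` whose mismatches with `x` have square sum at most `r` -/
def Good {N : ℕ} (A : Finset (Fin N → Ω)) (x : Fin N → Ω) (r : ℝ) : Prop :=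
  ∃ ν : (Fin N → Ω) → ℝ, (∀ y, 0 ≤ ν y) ∧ (∑ y, ν y = 1) ∧ (∀ y, y ∉ A → ν y = 0) ∧
    ∑ i, (∑ y with y i ≠ x i, ν y) ^ 2 ≤ r

lemma lift_good {N : ℕ} (A : Finset (Fin (N + 1) → Ω)) (A' : Finset (Fin N → Ω))
    (σ : (Fin N → Ω) → Ω) (hσ : ∀ x ∈ A', (Fin.cons (σ x) x : Fin (N + 1) → Ω) ∈ A)
    (ν : (Fin N → Ω) → ℝ) (h0 : ∀ y, 0 ≤ ν y) (h1 : ∑ y, ν y = 1) (h2 : ∀ y, y ∉ A' → ν y = 0) :
    (∀ y, 0 ≤ lift σ ν y) ∧ (∑ y, lift σ ν y = 1) ∧ (∀ y, y ∉ A → lift σ ν y = 0) ∧
      ∀ (o : Ω) (x : Fin N → Ω),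
        mis (lift σ ν) (Fin.cons o x) 0 = ∑ y, ν y * (if σ y ≠ o then 1 else 0) ∧
        ∀ j : Fin N, mis (lift σ ν) (Fin.cons o x) j.succ = mis ν x j := by
  refine ⟨?_, ?_, ?_, ?_⟩
  · intro y
    unfold lift
    split_ifs
    · exact h0 _
    · exact le_refl _
  · have := lift_sum σ ν (fun _ => 1)
    simpa [h1] using this
  · intro y hy
    unfold lift
    split_ifs with h
    · apply h2
      intro hy'
      apply hy
      have := hσ _ hy'
      rw [← h, Fin.cons_self_tail] at this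
      exact this
    · rfl
  · intro o x
    refine ⟨?_, fun j => ?_⟩
    · rw [mis_eq, lift_sum]
      simp
    · rw [mis_eq, lift_sum, mis_eq]
      simp

/-- mixture of two lifts -/
lemma mix_good {N : ℕ} (A : Finset (Fin (N + 1) → Ω)) (A1 A2 : Finset (Fin N → Ω)) (o : Ω)
    (h1A : ∀ x ∈ A1, (Fin.cons o x : Fin (N + 1) → Ω) ∈ A)
    (h2A : ∀ x ∈ A2, ∃ o', (Fin.cons o' x : Fin (N + 1) → Ω) ∈ A)
    (x : Fin N → Ω) (r1 r2 θ : ℝ) (hθ0 : 0 ≤ θ) (hθ1 : θ ≤ 1)
    (hg1 : Good A1 x r1) (hg2 : Good A2 x r2) :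
    Good A (Fin.cons o x) ((1 - θ) ^ 2 + θ * r1 + (1 - θ) * r2) := by
  classical
  obtain ⟨ν1, a0, a1, a2, a3⟩ := hg1
  obtain ⟨ν2, b0, b1, b2, b3⟩ := hg2
  let σ : (Fin N → Ω) → Ω := fun x => if h : x ∈ A2 then (h2A x h).choose else o
  have hσ : ∀ x ∈ A2, (Fin.cons (σ x) x : Fin (N + 1) → Ω) ∈ A := by
    intro x hx
    simp only [σ, hx, dif_pos]
    exact (h2A x hx).choose_spec
  obtain ⟨c0, c1, c2, c3⟩ := lift_good A A1 (fun _ => o) h1A ν1 a0 a1 a2
  obtain ⟨d0, d1, d2, d3⟩ := lift_good A A2 σ hσ ν2 b0 b1 b2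
  obtain ⟨c4, c5⟩ := c3 o x
  obtain ⟨d4, d5⟩ := d3 o x
  refine ⟨fun y => θ * lift (fun _ => o) ν1 y + (1 - θ) * lift σ ν2 y, ?_, ?_, ?_, ?_⟩
  · intro y
    have := c0 y
    have := d0 y
    have := sub_nonneg.2 hθ1
    positivity
  · rw [Finset.sum_add_distrib, ← Finset.mul_sum, ← Finset.mul_sum, c1, d1]
    ring
  · intro y hy
    change θ * lift (fun _ => o) ν1 y + (1 - θ) * lift σ ν2 y = 0
    rw [c2 y hy, d2 y hy]
    ring
  · have hmis : ∀ i, (∑ y with y i ≠ (Fin.cons o x : Fin (N + 1) → Ω) i,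
        (θ * lift (fun _ => o) ν1 y + (1 - θ) * lift σ ν2 y))
        = θ * mis (lift (fun _ => o) ν1) (Fin.cons o x) i
          + (1 - θ) * mis (lift σ ν2) (Fin.cons o x) i := by
      intro i
      unfold mis
      rw [Finset.sum_add_distrib, ← Finset.mul_sum, ← Finset.mul_sum]
    rw [Finset.sum_congr rfl (fun i _ => by rw [hmis i])]
    rw [Fin.sum_univ_succ]
    have e0 : mis (lift (fun _ => o) ν1) (Fin.cons o x) 0 = 0 := by
      rw [c4]; simp
    have e1 : mis (lift σ ν2) (Fin.cons o x) 0 ≤ 1 := by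
      rw [d4]
      refine (Finset.sum_le_sum (fun y _ => ?_)).trans b1.le
      have := b0 y
      split_ifs <;> simp [this]
    have e2 : 0 ≤ mis (lift σ ν2) (Fin.cons o x) 0 := by
      rw [d4]
      refine Finset.sum_nonneg (fun y _ => ?_)
      have := b0 y
      split_ifs <;> simp [this]
    rw [e0]
    have e3 : (θ * 0 + (1 - θ) * mis (lift σ ν2) (Fin.cons o x) 0) ^ 2 ≤ (1 - θ) ^ 2 := by
      have h1θ := sub_nonneg.2 hθ1
      apply pow_le_pow_left₀ (by positivity)
      nlinarith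
    have e4 : ∑ j : Fin N, (θ * mis (lift (fun _ => o) ν1) (Fin.cons o x) j.succ
          + (1 - θ) * mis (lift σ ν2) (Fin.cons o x) j.succ) ^ 2
        ≤ ∑ j : Fin N, (θ * (mis ν1 x j) ^ 2 + (1 - θ) * (mis ν2 x j) ^ 2) := by
      refine Finset.sum_le_sum (fun j _ => ?_)
      rw [c5 j, d5 j]
      nlinarith [mul_nonneg (mul_nonneg hθ0 (sub_nonneg.2 hθ1))
        (sq_nonneg (mis ν1 x j - mis ν2 x j))]
    rw [Finset.sum_add_distrib, ← Finset.mul_sum, ← Finset.mul_sum] at e4
    have a3' : ∑ j, (mis ν1 x j) ^ 2 ≤ r1 := a3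
    have b3' : ∑ j, (mis ν2 x j) ^ 2 ≤ r2 := b3
    have f1 := mul_le_mul_of_nonneg_left a3' hθ0
    have f2 := mul_le_mul_of_nonneg_left b3' (sub_nonneg.2 hθ1)
    linarith

end

theorem talagrand {Ω : Type} [Fintype Ω] [DecidableEq Ω] (w : Ω → ℝ) (hw : ∀ o, 0 ≤ w o)
    (hw1 : ∑ o, w o = 1) (N : ℕ) (A : Finset (Fin N → Ω)) (hA : 0 < ∑ x ∈ A, mu w x) :
    ∃ g : (Fin N → Ω) → ℝ,
      (∀ x, ∃ ν : (Fin N → Ω) → ℝ, (∀ y, 0 ≤ ν y) ∧ (∑ y, ν y = 1) ∧ (∀ y, y ∉ A → ν y = 0) ∧
        ∑ i, (∑ y with y i ≠ x i, ν y) ^ 2 ≤ g x) ∧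
      (∑ x, mu w x * Real.exp (g x / 4)) * (∑ x ∈ A, mu w x) ≤ 1 := by
  classical
  induction N with
  | zero =>
    have hne : A.Nonempty := by
      by_contra h
      rw [Finset.not_nonempty_iff_eq_empty] at h
      rw [h] at hA
      simp at hA
    obtain ⟨y0, hy0⟩ := hne
    refine ⟨fun _ => 0, ?_, ?_⟩
    · intro x
      refine ⟨fun _ => 1, fun _ => zero_le_one, by simp, ?_, by simp⟩
      intro y hy
      exfalso
      apply hy
      rw [Subsingleton.elim y y0]
      exact hy0
    · have h1 : (A.card : ℝ) ≤ 1 := by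
        have := Finset.card_le_univ A
        simp at this
        exact_mod_cast this
      simpa [mu] using h1
  | succ N ih =>
    let Ao : Ω → Finset (Fin N → Ω) := fun o =>
      Finset.univ.filter (fun x => (Fin.cons o x : Fin (N + 1) → Ω) ∈ A)
    let As : Finset (Fin N → Ω) :=
      Finset.univ.filter (fun x => ∃ o, (Fin.cons o x : Fin (N + 1) → Ω) ∈ A)
    set a : Ω → ℝ := fun o => ∑ x ∈ Ao o, mu w x with ha
    set b : ℝ := ∑ x ∈ As, mu w x with hb
    have hle : ∀ o, a o ≤ b := by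
      intro o
      apply Finset.sum_le_sum_of_subset_of_nonneg
      · intro x hx
        simp only [Ao, As, Finset.mem_filter, Finset.mem_univ, true_and] at hx ⊢
        exact ⟨o, hx⟩
      · intro x _ _
        exact mu_nonneg w hw x
    have hsumA : ∑ x ∈ A, mu w x = ∑ o, w o * a o := by
      have h1 : ∑ x ∈ A, mu w x = ∑ x, if x ∈ A then mu w x else 0 := by
        rw [← Finset.sum_filter]
        congr 1
        ext x
        simp
      rw [h1, sum_cons]
      refine Finset.sum_congr rfl (fun o _ => ?_)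
      rw [ha]
      simp only [Ao]
      rw [Finset.sum_filter, Finset.mul_sum]
      refine Finset.sum_congr rfl (fun x _ => ?_)
      rw [mu_cons]
      split_ifs <;> simp
    have hbA : ∑ x ∈ A, mu w x ≤ b := by
      rw [hsumA]
      calc ∑ o, w o * a o ≤ ∑ o, w o * b :=
            Finset.sum_le_sum (fun o _ => mul_le_mul_of_nonneg_left (hle o) (hw o))
        _ = b := by rw [← Finset.sum_mul, hw1, one_mul]
    have hb0 : 0 < b := lt_of_lt_of_le hA hbA
    obtain ⟨gs, hgs, hgs2⟩ := ih As hb0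
    have key : ∀ o, ∃ G : (Fin N → Ω) → ℝ, (∀ x, Good A (Fin.cons o x) (G x)) ∧
        (∑ x, mu w x * Real.exp (G x / 4)) * b ^ 2 ≤ 2 * b - a o := by
      intro o
      have hAo : ∀ x ∈ Ao o, (Fin.cons o x : Fin (N + 1) → Ω) ∈ A := by
        intro x hx
        simpa [Ao] using hx
      have hAs : ∀ x ∈ As, ∃ o', (Fin.cons o' x : Fin (N + 1) → Ω) ∈ A := by
        intro x hx
        simpa [As] using hx
      by_cases hr : a o < Real.exp (-(1 / 2)) * b
      · -- theta = 0
        refine ⟨fun x => (1 - 0) ^ 2 + 0 * (gs x) + (1 - 0) * gs x, ?_, ?_⟩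
        · intro x
          have hσ : Good A (Fin.cons o x : Fin (N + 1) → Ω) ((1 - 0) ^ 2 + 0 * (gs x)
              + (1 - 0) * gs x) := by
            obtain ⟨ν2, b0, b1, b2, b3⟩ := hgs x
            let σ : (Fin N → Ω) → Ω := fun x => if h : x ∈ As then (hAs x h).choose else o
            have hσ : ∀ x ∈ As, (Fin.cons (σ x) x : Fin (N + 1) → Ω) ∈ A := by
              intro x hx
              simp only [σ, hx, dif_pos]
              exact (hAs x hx).choose_spec
            obtain ⟨d0, d1, d2, d3⟩ := lift_good A As σ hσ ν2 b0 b1 b2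
            obtain ⟨d4, d5⟩ := d3 o x
            refine ⟨lift σ ν2, d0, d1, d2, ?_⟩
            rw [Fin.sum_univ_succ]
            have e1 : mis (lift σ ν2) (Fin.cons o x) 0 ≤ 1 := by
              rw [d4]
              refine (Finset.sum_le_sum (fun y _ => ?_)).trans b1.le
              have := b0 y
              split_ifs <;> simp [this]
            have e2 : 0 ≤ mis (lift σ ν2) (Fin.cons o x) 0 := by
              rw [d4]
              refine Finset.sum_nonneg (fun y _ => ?_)
              have := b0 y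
              split_ifs <;> simp [this]
            have e3 : (mis (lift σ ν2) (Fin.cons o x) 0) ^ 2 ≤ 1 := by nlinarith
            have e4 : ∑ j : Fin N, (mis (lift σ ν2) (Fin.cons o x) j.succ) ^ 2 ≤ gs x := by
              rw [Finset.sum_congr rfl (fun j _ => by rw [d5 j])]
              exact b3
            have e5 := add_le_add e3 e4
            refine e5.trans ?_
            linarith
          exact hσ
        · have e1 : ∀ x, mu w x * Real.exp (((1 - 0) ^ 2 + 0 * (gs x) + (1 - 0) * gs x) / 4)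
              = Real.exp (1 / 4) * (mu w x * Real.exp (gs x / 4)) := by
            intro x
            have : ((1 - 0) ^ 2 + 0 * (gs x) + (1 - 0) * gs x) / 4 = 1 / 4 + gs x / 4 := by ring
            rw [this, Real.exp_add]; ring
          rw [Finset.sum_congr rfl (fun x _ => e1 x), ← Finset.mul_sum]
          have e2 := one_var (-(1 / 2)) (by norm_num) (by norm_num)
          have e3 : -(-(1 / 2) : ℝ) - (-(1 / 2)) ^ 2 = 1 / 4 := by norm_num
          rw [e3] at e2
          have e4 : (∑ x, mu w x * Real.exp (gs x / 4)) * b ≤ 1 := hgs2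
          calc Real.exp (1 / 4) * (∑ x, mu w x * Real.exp (gs x / 4)) * b ^ 2
              = (Real.exp (1 / 4) * b) * ((∑ x, mu w x * Real.exp (gs x / 4)) * b) := by ring
            _ ≤ (Real.exp (1 / 4) * b) * 1 :=
                mul_le_mul_of_nonneg_left e4 (by positivity)
            _ ≤ 2 * b - a o := by
                have := mul_le_mul_of_nonneg_right e2 hb0.le
                nlinarith
      · push Not at hr
        have ha0 : 0 < a o := lt_of_lt_of_le (by positivity) hr
        obtain ⟨go, hgo, hgo2⟩ := ih (Ao o) ha0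
        set L : ℝ := Real.log (a o) - Real.log b with hL
        have hL0 : L ≤ 0 := by
          have := Real.log_le_log ha0 (hle o)
          linarith
        have hL1 : -(1 / 2) ≤ L := by
          have := Real.log_le_log (by positivity) hr
          rw [Real.log_mul (Real.exp_ne_zero _) hb0.ne', Real.log_exp] at this
          linarith
        set θ : ℝ := 1 + 2 * L with hθ
        have hθ0 : 0 ≤ θ := by linarith
        have hθ1 : θ ≤ 1 := by linarith
        refine ⟨fun x => (1 - θ) ^ 2 + θ * go x + (1 - θ) * gs x, ?_, ?_⟩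
        · intro x
          exact mix_good A (Ao o) As o hAo hAs x (go x) (gs x) θ hθ0 hθ1 (hgo x) (hgs x)
        · have c1 : ∀ x, mu w x * Real.exp (((1 - θ) ^ 2 + θ * go x + (1 - θ) * gs x) / 4)
              ≤ Real.exp ((1 - θ) ^ 2 / 4 - θ * Real.log (a o) - (1 - θ) * Real.log b) *
                (θ * (mu w x * Real.exp (go x / 4) * a o)
                  + (1 - θ) * (mu w x * Real.exp (gs x / 4) * b)) := by
            intro x
            have hm := mu_nonneg w hw x
            have hconv := convexOn_exp.2 (Set.mem_univ (Real.log (a o) + go x / 4))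
              (Set.mem_univ (Real.log b + gs x / 4)) hθ0 (sub_nonneg.2 hθ1) (by ring)
            simp only [smul_eq_mul] at hconv
            have hx1 : Real.exp (Real.log (a o) + go x / 4) = a o * Real.exp (go x / 4) := by
              rw [Real.exp_add, Real.exp_log ha0]
            have hx2 : Real.exp (Real.log b + gs x / 4) = b * Real.exp (gs x / 4) := by
              rw [Real.exp_add, Real.exp_log hb0]
            rw [hx1, hx2] at hconv
            have e1 : ((1 - θ) ^ 2 + θ * go x + (1 - θ) * gs x) / 4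
                = ((1 - θ) ^ 2 / 4 - θ * Real.log (a o) - (1 - θ) * Real.log b)
                  + (θ * (Real.log (a o) + go x / 4) + (1 - θ) * (Real.log b + gs x / 4)) := by
              ring
            rw [e1, Real.exp_add]
            set E := Real.exp ((1 - θ) ^ 2 / 4 - θ * Real.log (a o) - (1 - θ) * Real.log b)
            have hE : 0 ≤ E := (Real.exp_pos _).le
            calc mu w x * (E * Real.exp (θ * (Real.log (a o) + go x / 4)
                  + (1 - θ) * (Real.log b + gs x / 4)))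
                ≤ mu w x * (E * (θ * (a o * Real.exp (go x / 4))
                  + (1 - θ) * (b * Real.exp (gs x / 4)))) := by
                  apply mul_le_mul_of_nonneg_left _ hm
                  exact mul_le_mul_of_nonneg_left hconv hE
              _ = _ := by ring
          have c2 := Finset.sum_le_sum (fun x (_ : x ∈ (Finset.univ : Finset (Fin N → Ω))) => c1 x)
          rw [← Finset.mul_sum, Finset.sum_add_distrib, ← Finset.mul_sum, ← Finset.mul_sum,
            ← Finset.sum_mul, ← Finset.sum_mul] at c2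
          have c3 : (1 - θ) ^ 2 / 4 - θ * Real.log (a o) - (1 - θ) * Real.log b
              = (-L - L ^ 2) - Real.log b := by
            rw [hθ, hL]; ring
          rw [c3, Real.exp_sub, Real.exp_log hb0] at c2
          have c4 : θ * ((∑ x, mu w x * Real.exp (go x / 4)) * a o)
              + (1 - θ) * ((∑ x, mu w x * Real.exp (gs x / 4)) * b) ≤ 1 := by
            have f1 := mul_le_mul_of_nonneg_left hgo2 hθ0
            have f2 := mul_le_mul_of_nonneg_left hgs2 (sub_nonneg.2 hθ1)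
            linarith
          have c5 := one_var L hL0 hL1
          have c6 : Real.exp L * b = a o := by
            rw [hL, Real.exp_sub, Real.exp_log ha0, Real.exp_log hb0]
            field_simp
          have c7 : (∑ x, mu w x * Real.exp (((1 - θ) ^ 2 + θ * go x + (1 - θ) * gs x) / 4))
              ≤ Real.exp (-L - L ^ 2) / b := by
            refine c2.trans ?_
            have : 0 ≤ Real.exp (-L - L ^ 2) / b := by positivity
            nlinarith [mul_le_mul_of_nonneg_left c4 this]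
          calc (∑ x, mu w x * Real.exp (((1 - θ) ^ 2 + θ * go x + (1 - θ) * gs x) / 4)) * b ^ 2
              ≤ (Real.exp (-L - L ^ 2) / b) * b ^ 2 :=
                mul_le_mul_of_nonneg_right c7 (by positivity)
            _ = Real.exp (-L - L ^ 2) * b := by field_simp
            _ ≤ (2 - Real.exp L) * b := mul_le_mul_of_nonneg_right c5 hb0.le
            _ = 2 * b - a o := by rw [← c6]; ring
    choose G hG1 hG2 using key
    refine ⟨fun x => G (x 0) (Fin.tail x), ?_, ?_⟩
    · intro x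
      have := hG1 (x 0) (Fin.tail x)
      rw [Fin.cons_self_tail] at this
      exact this
    · have e1 : (∑ x : Fin (N + 1) → Ω, mu w x * Real.exp (G (x 0) (Fin.tail x) / 4))
          = ∑ o, w o * ∑ x, mu w x * Real.exp (G o x / 4) := by
        rw [sum_cons]
        refine Finset.sum_congr rfl (fun o _ => ?_)
        rw [Finset.mul_sum]
        refine Finset.sum_congr rfl (fun x _ => ?_)
        rw [mu_cons, Fin.cons_zero, Fin.tail_cons]
        ring
      rw [e1]
      set u := ∑ x ∈ A, mu w x with hu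
      have e2 : (∑ o, w o * ∑ x, mu w x * Real.exp (G o x / 4)) * b ^ 2 ≤ 2 * b - u := by
        rw [Finset.sum_mul]
        calc ∑ o, w o * (∑ x, mu w x * Real.exp (G o x / 4)) * b ^ 2
            = ∑ o, w o * ((∑ x, mu w x * Real.exp (G o x / 4)) * b ^ 2) :=
              Finset.sum_congr rfl (fun o _ => by ring)
          _ ≤ ∑ o, w o * (2 * b - a o) :=
              Finset.sum_le_sum (fun o _ => mul_le_mul_of_nonneg_left (hG2 o) (hw o))
          _ = 2 * b - u := by
              rw [hsumA]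
              simp only [mul_sub]
              rw [Finset.sum_sub_distrib, ← Finset.sum_mul, hw1, one_mul]
      have e3 : ((∑ o, w o * ∑ x, mu w x * Real.exp (G o x / 4)) * u) * b ^ 2 ≤ 1 * b ^ 2 := by
        calc ((∑ o, w o * ∑ x, mu w x * Real.exp (G o x / 4)) * u) * b ^ 2
            = ((∑ o, w o * ∑ x, mu w x * Real.exp (G o x / 4)) * b ^ 2) * u := by ring
          _ ≤ (2 * b - u) * u := mul_le_mul_of_nonneg_right e2 hA.le
          _ ≤ 1 * b ^ 2 := by nlinarith [sq_nonneg (b - u)]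
      exact le_of_mul_le_mul_right e3 (by positivity)

end Pool.Agent.DY17
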